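import Pool.Agent.V7H97.Final

set_option autoImplicit false

/-!
The discrete Gaussian chain with couplings `|x - y| ^ (-α)`, `2 < α < 3`, zero boundary condition
outside `{-n, ..., n}`: at every temperature the variance of the height at the origin is at least
`c n ^ (α - 2)`.

Proof. For lattice vectors `τ_0, ..., τ_n` the Cauchy-Schwarz inequality between `ψ ↦ ψ_0` and the sum
of the functions `P(ψ - τ_m) / P(ψ) - 1` gives
`(∑ τ_m(0))² ≤ E[ψ_0²] ∑_{k, m} (exp (2 β B(τ_k, τ_m)) - 1)`, `B` being the bilinear form of the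
Hamiltonian. Take for `τ_m` the indicator of `{-m, ..., m}`: the numbers `B(τ_k, τ_m)` are nonnegative
and bounded (this is where `α > 2` is used), and their sum is the energy of a tent function, which is
at most `C n ^ (4 - α)`.
-/

namespace Pool.Agent.Results.MP_57c4e5_pr.SharpGrowthH97

/-- integer valued configurations on `ℤ` which vanish outside `{-n, ..., n}` -/
def Conf (n : ℕ) : Type := {ψ : ℤ → ℤ // ∀ x : ℤ, (n : ℤ) < |x| → ψ x = 0}

/-- the Hamiltonian: the sum over unordered pairs of distinct integers of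
`(ψ x - ψ y)² / |x - y| ^ α`, written as one half of the sum over ordered pairs -/
noncomputable def ham (α : ℝ) (ψ : ℤ → ℤ) : ℝ :=
  (1 / 2) * ∑' p : ℤ × ℤ, if p.1 = p.2 then (0 : ℝ)
    else ((ψ p.1 : ℝ) - (ψ p.2 : ℝ)) ^ 2 / |(p.1 : ℝ) - (p.2 : ℝ)| ^ α

/-- the partition function -/
noncomputable def Z (α β : ℝ) (n : ℕ) : ℝ := ∑' ψ : Conf n, Real.exp (-β * ham α ψ.1)

/-- the expectation of `f` under the discrete Gaussian chain -/
noncomputable def mean (α β : ℝ) (n : ℕ) (f : (ℤ → ℤ) → ℝ) : ℝ :=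
  (∑' ψ : Conf n, f ψ.1 * Real.exp (-β * ham α ψ.1)) / Z α β n

/-- the variance of the height at the origin -/
noncomputable def var0 (α β : ℝ) (n : ℕ) : ℝ :=
  mean α β n (fun ψ => (ψ 0 : ℝ) ^ 2) - mean α β n (fun ψ => (ψ 0 : ℝ)) ^ 2

open Pool.Agent.V7H97.Chain in
theorem ham_eq (α : ℝ) (ψ : ℤ → ℤ) : ham α ψ = (1 / 2) * Bil α (re ψ) (re ψ) := by
  unfold ham Bil
  congr 1
  refine tsum_congr fun p => ?_
  unfold g re
  by_cases h : p.1 = p.2
  · rw [if_pos h, if_pos (sub_eq_zero.2 h), zero_mul]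
  · rw [if_neg h, if_neg (sub_ne_zero.2 h), Real.rpow_neg (by positivity), ← sq]
    push_cast
    field_simp

/-- For `2 < α < 3` and every `β > 0`: the sums which define the measure converge, the partition
function is positive and the variance of the height at the origin is at least `c (n + 1) ^ (α - 2)`. -/
theorem result (α : ℝ) (h2 : 2 < α) (h3 : α < 3) (β : ℝ) (hβ : 0 < β) :
    (∀ n : ℕ, Summable (fun ψ : Conf n => Real.exp (-β * ham α ψ.1)) ∧
      Summable (fun ψ : Conf n => (ψ.1 0 : ℝ) ^ 2 * Real.exp (-β * ham α ψ.1)) ∧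
      0 < Z α β n) ∧
    ∃ c : ℝ, 0 < c ∧ ∀ n : ℕ, c * ((n : ℝ) + 1) ^ (α - 2) ≤ var0 α β n := by
  have hβ2 : 0 < β / 2 := by positivity
  have hexp : ∀ ψ : ℤ → ℤ, Real.exp (-β * ham α ψ) =
      Real.exp (-(β / 2 * Pool.Agent.V7H97.Chain.Bil α (Pool.Agent.V7H97.Chain.re ψ)
        (Pool.Agent.V7H97.Chain.re ψ))) := by
    intro ψ
    rw [ham_eq]
    congr 1
    ring
  have hsum := fun n => Pool.Agent.V7H97.Chain.summable_W α (β / 2) (by linarith) hβ2 n
  have hW : ∀ n : ℕ, Summable (fun ψ : Conf n => Real.exp (-β * ham α ψ.1)) := by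
    intro n
    simp only [hexp]
    exact (hsum n).1
  have hU : ∀ n : ℕ, Summable (fun ψ : Conf n => (ψ.1 0 : ℝ) ^ 2 * Real.exp (-β * ham α ψ.1)) := by
    intro n
    simp only [hexp]
    exact (hsum n).2
  have hZ : ∀ n : ℕ, 0 < Z α β n := by
    intro n
    exact (hW n).tsum_pos (fun _ => (Real.exp_pos _).le)
      (⟨0, fun _ _ => rfl⟩ : {ψ : ℤ → ℤ // ∀ x : ℤ, (n : ℤ) < |x| → ψ x = 0}) (Real.exp_pos _)
  refine ⟨fun n => ⟨hW n, hU n, hZ n⟩, ?_⟩
  obtain ⟨c, hc, hmain⟩ := Pool.Agent.V7H97.Chain.main α (β / 2) h2 h3 hβ2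
  refine ⟨c, hc, fun n => ?_⟩
  -- the mean is zero
  have hmean : mean α β n (fun ψ => (ψ 0 : ℝ)) = 0 := by
    have h4 : ∑' ψ : Conf n, (ψ.1 0 : ℝ) * Real.exp (-β * ham α ψ.1) =
        -∑' ψ : Conf n, (ψ.1 0 : ℝ) * Real.exp (-β * ham α ψ.1) := by
      have e1 := (Equiv.neg (Pool.Agent.V7H97.Chain.S n)).tsum_eq
        (fun ψ : Pool.Agent.V7H97.Chain.S n => (ψ.1 0 : ℝ) * Real.exp (-β * ham α ψ.1))
      rw [← tsum_neg]
      refine Eq.trans e1.symm (tsum_congr fun ψ => ?_)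
      have e2 : ham α (-ψ.1) = ham α ψ.1 := by
        unfold ham
        congr 1
        refine tsum_congr fun p => ?_
        simp only [Pi.neg_apply, Int.cast_neg]
        split_ifs
        · rfl
        · congr 1; ring
      simp only [Equiv.neg_apply]
      have e3 : (-ψ : Pool.Agent.V7H97.Chain.S n).1 = -ψ.1 := rfl
      rw [e3, e2]
      simp
    unfold mean
    have h5 : ∑' ψ : Conf n, (ψ.1 0 : ℝ) * Real.exp (-β * ham α ψ.1) = 0 := by linarith
    rw [h5, zero_div]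
  have h6 := hmain n
  simp only [← hexp] at h6
  unfold var0
  rw [hmean]
  unfold mean
  rw [sq (0 : ℝ), mul_zero, sub_zero, le_div_iff₀ (hZ n)]
  exact h6

end Pool.Agent.Results.MP_57c4e5_pr.SharpGrowthH97
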